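import Pool.Agent.Helper55.FR.GoalsA

/-!
# FR-ZBD
-/

namespace Pool.Agent.Helper83.FR

open Finset Pool.Agent.Helper55.FR

theorem zbd : ZbdStmt := by
  intro V _ _ n m h g b ρ h0 h1 hg hR
  classical
  have hsub : Zs n m ρ ⊆ (Ks ρ ∪ (Spc n ρ ∪ (Spc n ρ).image n)) ∪ MM m ρ := by
    intro x hx
    have hx' := (mem_filter.1 hx).2
    rw [mem_union, mem_union, mem_union]
    by_cases hK : isK (ρ x)
    · exact Or.inl (Or.inl (mem_filter.2 ⟨mem_univ _, hK⟩))
    have hspc : ∀ a : Lab, ¬ isK a → a ≠ Lab.O → spc a a := by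
      intro a ha ha'
      cases a <;> simp_all [isK, spc]
    rcases hx' with hx' | hx' | hx' | hx'
    · exact absurd hx' hK
    · refine Or.inl (Or.inr (Or.inl (mem_filter.2 ⟨mem_univ _, ?_⟩)))
      rw [hx']
      exact hspc _ hK (hR.noO x)
    · refine Or.inl (Or.inr (Or.inr (mem_image.2 ⟨n.symm x, mem_filter.2 ⟨mem_univ _, ?_⟩, ?_⟩)))
      · rw [hx', Equiv.apply_symm_apply]
        exact hspc _ hK (hR.noO x)
      · exact Equiv.apply_symm_apply n x
    · exact Or.inr (mem_filter.2 ⟨mem_univ _, hK, hx'⟩)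
  have hc : (Zs n m ρ).card ≤ (Ks ρ).card + ((Spc n ρ).card + (Spc n ρ).card) + (MM m ρ).card := by
    refine (card_le_card hsub).trans ((card_union_le _ _).trans ?_)
    refine Nat.add_le_add_right ((card_union_le _ _).trans ?_) _
    refine Nat.add_le_add_left ((card_union_le _ _).trans ?_) _
    exact Nat.add_le_add_left card_image_le _
  have hc' : ((Zs n m ρ).card : ℝ) ≤ (Ks ρ).card + ((Spc n ρ).card + (Spc n ρ).card) +
      (MM m ρ).card := by exact_mod_cast hc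
  have hM : ((MM m ρ).card : ℝ) ≤ 4 * b := by
    have := hR.cM
    have h2 : (MM m ρ).card ≤ 4 * b := by omega
    exact_mod_cast h2
  have hK := hR.cK
  have hS := hR.cS
  have hs0 : (0 : ℝ) ≤ (Spc n ρ).card := Nat.cast_nonneg _
  have hm0 : (0 : ℝ) ≤ (MM m ρ).card := Nat.cast_nonneg _
  have hb0 : (0 : ℝ) ≤ b := Nat.cast_nonneg _
  have h24 : 24 * ((Spc n ρ).card : ℝ) ≤ h * g * (Spc n ρ).card :=
    mul_le_mul_of_nonneg_right hg hs0
  have hhM : h * ((MM m ρ).card : ℝ) ≤ 4 * b := by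
    calc h * ((MM m ρ).card : ℝ) ≤ 1 * (MM m ρ).card := mul_le_mul_of_nonneg_right h1 hm0
      _ ≤ 4 * b := by linarith
  have hhS : h * ((Spc n ρ).card : ℝ) ≤ (Spc n ρ).card := by
    calc h * ((Spc n ρ).card : ℝ) ≤ 1 * (Spc n ρ).card := mul_le_mul_of_nonneg_right h1 hs0
      _ = _ := one_mul _
  have := mul_le_mul_of_nonneg_left hc' h0.le
  linarith

end Pool.Agent.Helper83.FR
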